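import Pool.Agent.W206.ND.Stm

/-!
# CY: the lattice points in a cell form a progression
-/

set_option autoImplicit false

namespace Pool.Agent.W371.ND.CY

open Finset Pool.Agent.W206.ND

/-- translation by an integer is a permutation of the residues -/
lemma reidx {M : Type*} [AddCommMonoid M] (F : ℤ) (v : ℕ) (hv : 1 ≤ v) (H : ℕ → M) :
    ∑ w ∈ range v, H (((F + w) % (v : ℤ)).toNat) = ∑ k ∈ range v, H k := by
  have hv' : (0 : ℤ) < (v : ℤ) := by exact_mod_cast hv
  have hv0 : (v : ℤ) ≠ 0 := ne_of_gt hv'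
  refine Finset.sum_nbij' (fun w => ((F + w) % (v : ℤ)).toNat)
    (fun k => (((k : ℤ) - F) % (v : ℤ)).toNat) ?_ ?_ ?_ ?_ ?_
  · intro w _
    rw [Finset.mem_range]
    have h1 := Int.emod_nonneg (F + w) hv0
    have h2 := Int.emod_lt_of_pos (F + w) hv'
    omega
  · intro k _
    rw [Finset.mem_range]
    have h1 := Int.emod_nonneg ((k : ℤ) - F) hv0
    have h2 := Int.emod_lt_of_pos ((k : ℤ) - F) hv'
    omega
  · intro w hw
    rw [Finset.mem_range] at hw
    have h1 := Int.emod_nonneg (F + w) hv0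
    have e1 : ((((F + w) % (v : ℤ)).toNat : ℕ) : ℤ) = (F + w) % (v : ℤ) := Int.toNat_of_nonneg h1
    show Int.toNat ((((((F + w) % (v : ℤ)).toNat : ℕ) : ℤ) - F) % (v : ℤ)) = w
    rw [e1, Int.emod_sub_emod]
    have e2 : F + (w : ℤ) - F = w := by ring
    rw [e2, Int.emod_eq_of_lt (by positivity) (by exact_mod_cast hw)]
    simp
  · intro k hk
    rw [Finset.mem_range] at hk
    have h1 := Int.emod_nonneg ((k : ℤ) - F) hv0
    have e1 : (((((k : ℤ) - F) % (v : ℤ)).toNat : ℕ) : ℤ) = ((k : ℤ) - F) % (v : ℤ) :=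
      Int.toNat_of_nonneg h1
    show Int.toNat ((F + ((((k : ℤ) - F) % (v : ℤ)).toNat : ℕ)) % (v : ℤ)) = k
    rw [e1, Int.add_emod_emod]
    have e2 : F + ((k : ℤ) - F) = k := by ring
    rw [e2, Int.emod_eq_of_lt (by positivity) (by exact_mod_cast hk)]
    simp
  · intro w _
    rfl

lemma trunc {M : Type*} [AddCommMonoid M] (v m : ℕ) (h : m ≤ v) (A : ℕ → M) :
    ∑ k ∈ range v, (if k < m then A k else 0) = ∑ k ∈ range m, A k := by
  rw [← Finset.sum_filter]
  congr 1
  ext k
  simp only [Finset.mem_filter, Finset.mem_range]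
  omega

lemma ee_add (a b : ℝ) : ee (a + b) = ee a * ee b := by
  unfold ee
  rw [← Complex.exp_add]
  congr 1
  push_cast
  ring

lemma ee_int (n : ℤ) : ee (n : ℝ) = 1 := by
  unfold ee
  rw [Complex.exp_eq_one_iff]
  refine ⟨n, ?_⟩
  push_cast
  ring

theorem main : S_CY := by
  intro b v y hb hv
  have hb0 : (0 : ℝ) < b := by
    have : (2 : ℝ) ≤ b := by exact_mod_cast hb
    linarith
  have hv0 : (0 : ℝ) < v := by
    have : (1 : ℝ) ≤ v := by exact_mod_cast hv
    linarith
  have hvz : (0 : ℤ) < (v : ℤ) := by exact_mod_cast hv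
  have hvz0 : (v : ℤ) ≠ 0 := ne_of_gt hvz
  set φ : ℝ := Int.fract (y * v) with hφ
  set F : ℤ := ⌊y * v⌋ with hF
  have hφ0 : 0 ≤ φ := Int.fract_nonneg _
  have hφ1 : φ < 1 := Int.fract_lt_one _
  have hyv : y * v = F + φ := (Int.floor_add_fract (y * v)).symm
  have hy : y = F / v + φ / v := by
    field_simp
    linarith
  set m : ℕ := ⌈(v : ℝ) / b - φ⌉₊ with hm
  have hmv : m ≤ v := by
    rw [hm, Nat.ceil_le]
    have h1 : (v : ℝ) / b ≤ v := by
      rw [div_le_iff₀ hb0]
      have : (2 : ℝ) ≤ b := by exact_mod_cast hb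
      nlinarith
    linarith
  have hlt : ∀ k : ℕ, k < m ↔ (φ + k) / v < 1 / (b : ℝ) := by
    intro k
    rw [hm, Nat.lt_ceil, div_lt_div_iff₀ hv0 hb0]
    constructor
    · intro h
      have h2 : (k : ℝ) + φ < v / b := by linarith
      rw [lt_div_iff₀ hb0] at h2
      linarith
    · intro h
      have h2 : (k : ℝ) + φ < v / b := by
        rw [lt_div_iff₀ hb0]
        linarith
      linarith
  -- the structure of the translates
  have key : ∀ w : ℕ, ∃ Q : ℤ, y + w / v = Q + (φ / v + (((F + w) % (v : ℤ)).toNat : ℕ) / v) ∧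
      Int.fract (y + w / v) = (φ + (((F + w) % (v : ℤ)).toNat : ℕ)) / v := by
    intro w
    have h1 := Int.emod_nonneg (F + w) hvz0
    have h2 := Int.emod_lt_of_pos (F + w) hvz
    have e1 : ((((F + w) % (v : ℤ)).toNat : ℕ) : ℤ) = (F + w) % (v : ℤ) := Int.toNat_of_nonneg h1
    set σ : ℕ := ((F + w) % (v : ℤ)).toNat with hσ
    have e3 : (v : ℤ) * ((F + w) / (v : ℤ)) + σ = F + w := by
      rw [e1]
      exact Int.mul_ediv_add_emod (F + w) v
    have e3' : (v : ℝ) * (((F + w) / (v : ℤ) : ℤ) : ℝ) + σ = F + w := by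
      exact_mod_cast congrArg (fun z : ℤ => (z : ℝ)) e3
    have e4 : y + w / v = (((F + w) / (v : ℤ) : ℤ) : ℝ) + (φ / v + σ / v) := by
      rw [hy]
      field_simp
      linarith
    refine ⟨(F + w) / (v : ℤ), e4, ?_⟩
    have hσv : (σ : ℝ) + 1 ≤ v := by
      have : σ + 1 ≤ v := by omega
      exact_mod_cast this
    have e5 : φ / v + σ / v = (φ + σ) / v := by ring
    rw [e4, e5, Int.fract_intCast_add, Int.fract_eq_self]
    constructor
    · positivity
    · rw [div_lt_one hv0]
      linarith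
  have hff : ∀ w : ℕ, ff b (y + w / v) =
      if ((F + w) % (v : ℤ)).toNat < m then (1 : ℝ) else 0 := by
    intro w
    obtain ⟨Q, -, hQ⟩ := key w
    unfold ff
    rw [hQ]
    by_cases h : ((F + w) % (v : ℤ)).toNat < m
    · rw [if_pos h, if_pos ((hlt _).1 h)]
    · rw [if_neg h, if_neg (fun h' => h ((hlt _).2 h'))]
  refine ⟨m, φ / v, by positivity, ?_, ?_, ?_, ?_, ?_⟩
  · rw [div_mul_cancel₀ _ (ne_of_gt hv0)]
    exact hφ1
  · have h1 : (v : ℝ) / b - φ ≤ m := Nat.le_ceil _
    have h2 : (v : ℝ) / b ≤ m + φ := by linarith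
    rw [div_le_iff₀ hb0] at h2
    have h3 : (v : ℝ) - b < b * m := by nlinarith
    exact_mod_cast h3
  · by_cases hx : 0 ≤ (v : ℝ) / b - φ
    · have h1 : (m : ℝ) < (v : ℝ) / b - φ + 1 := Nat.ceil_lt_add_one hx
      have h2 : (m : ℝ) - 1 < (v : ℝ) / b := by linarith
      rw [lt_div_iff₀ hb0] at h2
      have h3 : (b : ℝ) * m < v + b := by linarith
      exact_mod_cast h3
    · have h1 : m = 0 := by
        rw [hm, Nat.ceil_eq_zero]
        linarith
      rw [h1]
      push_cast
      omega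
  · calc ∑ w ∈ range v, ff b (y + w / v)
        = ∑ w ∈ range v, (fun k : ℕ => if k < m then (1 : ℝ) else 0)
            (((F + w) % (v : ℤ)).toNat) := Finset.sum_congr rfl (fun w _ => hff w)
      _ = ∑ k ∈ range v, (if k < m then (1 : ℝ) else 0) :=
          reidx F v hv (fun k : ℕ => if k < m then (1 : ℝ) else 0)
      _ = ∑ k ∈ range m, (1 : ℝ) := trunc v m hmv _
      _ = m := by simp
  · intro s
    have hterm : ∀ w : ℕ, ee (-(s * w / v : ℝ)) * (ff b (y + w / v) : ℂ) =
        (fun k : ℕ => if k < m then ee (s * y) * ee (-(s * (φ / v + k / v))) else 0)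
          (((F + w) % (v : ℤ)).toNat) := by
      intro w
      rw [hff w]
      by_cases h : ((F + w) % (v : ℤ)).toNat < m
      · simp only [if_pos h]
        obtain ⟨Q, hQ, -⟩ := key w
        set σ : ℕ := ((F + w) % (v : ℤ)).toNat with hσ
        have e1 : (-(s * w / v : ℝ)) = s * y + -(s * (φ / v + σ / v)) + ((-(s * Q) : ℤ) : ℝ) := by
          have e2 : (w : ℝ) / v = Q + (φ / v + σ / v) - y := by linarith
          have e3 : (s * w / v : ℝ) = s * (w / v) := by ring
          rw [e3, e2]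
          push_cast
          ring
        rw [e1, ee_add, ee_add, ee_int]
        simp
      · simp only [if_neg h]
        simp
    calc KK b v s y = ∑ w ∈ range v, ee (-(s * w / v : ℝ)) * (ff b (y + w / v) : ℂ) := rfl
      _ = ∑ w ∈ range v, (fun k : ℕ => if k < m then ee (s * y) * ee (-(s * (φ / v + k / v)))
            else 0) (((F + w) % (v : ℤ)).toNat) := Finset.sum_congr rfl (fun w _ => hterm w)
      _ = ∑ k ∈ range v, (if k < m then ee (s * y) * ee (-(s * (φ / v + k / v))) else 0) :=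
          reidx F v hv (fun k : ℕ => if k < m then ee (s * y) * ee (-(s * (φ / v + k / v))) else 0)
      _ = ∑ k ∈ range m, ee (s * y) * ee (-(s * (φ / v + k / v))) := trunc v m hmv _
      _ = ee (s * y) * ∑ k ∈ range m, ee (-(s * (φ / v + k / v))) := by
          rw [Finset.mul_sum]

end Pool.Agent.W371.ND.CY
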