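import Pool.Agent.W206.ND.Stm

/-!
# AP: trigonometric majorants and minorants of intervals
-/

set_option autoImplicit false

namespace Pool.Agent.W371.ND.AP

open Pool.Agent.W206.ND MeasureTheory

/-- the circle `R / Z` -/
abbrev Circ : Type := AddCircle (1 : ℝ)

/-- the trigonometric polynomial with given coefficients -/
noncomputable def ev (p : ℤ →₀ ℂ) (y : ℝ) : ℂ := p.sum fun k c => c * ee (k * y)

lemma ev_zero (y : ℝ) : ev 0 y = 0 := by simp [ev]

lemma ev_add (p q : ℤ →₀ ℂ) (y : ℝ) : ev (p + q) y = ev p y + ev q y := by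
  unfold ev
  exact Finsupp.sum_add_index' (by intro k; simp) (by intro k c d; ring)

lemma ev_single (k : ℤ) (c : ℂ) (y : ℝ) : ev (Finsupp.single k c) y = c * ee (k * y) := by
  unfold ev
  exact Finsupp.sum_single_index (by simp)

lemma ev_smul (a : ℂ) (p : ℤ →₀ ℂ) (y : ℝ) : ev (a • p) y = a * ev p y := by
  induction p using Finsupp.induction_linear with
  | zero => simp [ev_zero]
  | add f g hf hg => rw [smul_add, ev_add, ev_add, hf, hg]; ring
  | single k c => rw [Finsupp.smul_single, ev_single, ev_single, smul_eq_mul]; ring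

lemma ee_cont : Continuous ee := by
  unfold ee
  fun_prop

lemma ev_cont (p : ℤ →₀ ℂ) : Continuous (ev p) := by
  induction p using Finsupp.induction_linear with
  | zero =>
    have : ev 0 = fun _ => 0 := funext ev_zero
    rw [this]
    exact continuous_const
  | add f g hf hg =>
    have : ev (f + g) = fun y => ev f y + ev g y := funext (ev_add f g)
    rw [this]
    exact hf.add hg
  | single k c =>
    have : ev (Finsupp.single k c) = fun y => c * ee (k * y) := funext (ev_single k c)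
    rw [this]
    exact continuous_const.mul (ee_cont.comp (continuous_const.mul continuous_id))

lemma ee_neg (x : ℝ) : ee (-x) = (starRingEnd ℂ) (ee x) := by
  unfold ee
  rw [← Complex.exp_conj]
  congr 1
  simp only [map_mul, Complex.conj_ofReal, Complex.conj_I, map_ofNat]
  push_cast
  ring

lemma ee_zero : ee 0 = 1 := by
  unfold ee
  simp

lemma conj_exists (p : ℤ →₀ ℂ) : ∃ p' : ℤ →₀ ℂ, ∀ y, ev p' y = (starRingEnd ℂ) (ev p y) := by
  induction p using Finsupp.induction_linear with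
  | zero => exact ⟨0, fun y => by simp [ev_zero]⟩
  | add f g hf hg =>
    obtain ⟨f', hf'⟩ := hf
    obtain ⟨g', hg'⟩ := hg
    exact ⟨f' + g', fun y => by rw [ev_add, ev_add, hf', hg', map_add]⟩
  | single k c =>
    refine ⟨Finsupp.single (-k) ((starRingEnd ℂ) c), fun y => ?_⟩
    rw [ev_single, ev_single, map_mul, ← ee_neg]
    congr 2
    push_cast
    ring

/-- the mean value is the coefficient of `0` -/
lemma ev_int (p : ℤ →₀ ℂ) : ∫ y in (0 : ℝ)..1, ev p y = p 0 := by
  induction p using Finsupp.induction_linear with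
  | zero => simp [ev_zero]
  | add f g hf hg =>
    have : (fun y => ev (f + g) y) = fun y => ev f y + ev g y := funext (ev_add f g)
    rw [this, intervalIntegral.integral_add ((ev_cont f).intervalIntegrable _ _)
      ((ev_cont g).intervalIntegrable _ _), hf, hg]
    rfl
  | single k c =>
    have : (fun y => ev (Finsupp.single k c) y) = fun y => c * ee (k * y) :=
      funext (ev_single k c)
    rw [this, intervalIntegral.integral_const_mul]
    by_cases hk : k = 0
    · subst hk
      simp [ee_zero]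
    · have h1 : (fun y : ℝ => ee (k * y)) =
          fun y : ℝ => Complex.exp ((2 * Real.pi * Complex.I * k) * (y : ℂ)) := by
        funext y
        unfold ee
        congr 1
        push_cast
        ring
      have h0 : (2 * Real.pi * Complex.I * k : ℂ) ≠ 0 := by
        have : (k : ℂ) ≠ 0 := by exact_mod_cast hk
        exact mul_ne_zero Complex.two_pi_I_ne_zero this
      rw [h1, integral_exp_mul_complex h0]
      have h2 : Complex.exp ((2 * Real.pi * Complex.I * k) * ((1 : ℝ) : ℂ)) = 1 := by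
        rw [Complex.exp_eq_one_iff]
        exact ⟨k, by push_cast; ring⟩
      rw [h2]
      simp [hk]

lemma fourier_ee (n : ℤ) (x : ℝ) : (fourier n (x : Circ) : ℂ) = ee (n * x) := by
  rw [fourier_coe_apply]
  unfold ee
  congr 1
  push_cast
  ring

lemma span_ev (f : C(Circ, ℂ)) (hf : f ∈ Submodule.span ℂ (Set.range <| @fourier 1)) :
    ∃ p : ℤ →₀ ℂ, ∀ y : ℝ, f (y : Circ) = ev p y := by
  induction hf using Submodule.span_induction with
  | mem f hf =>
    obtain ⟨n, rfl⟩ := hf
    exact ⟨Finsupp.single n 1, fun y => by rw [ev_single, fourier_ee, one_mul]⟩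
  | zero => exact ⟨0, fun y => by rw [ev_zero]; rfl⟩
  | add f g _ _ hf hg =>
    obtain ⟨f', hf'⟩ := hf
    obtain ⟨g', hg'⟩ := hg
    exact ⟨f' + g', fun y => by rw [ev_add, ← hf', ← hg']; rfl⟩
  | smul a f _ hf =>
    obtain ⟨f', hf'⟩ := hf
    exact ⟨a • f', fun y => by rw [ev_smul, ← hf']; rfl⟩

lemma approx (g : C(Circ, ℂ)) (η : ℝ) (hη : 0 < η) :
    ∃ p : ℤ →₀ ℂ, ∀ y : ℝ, ‖ev p y - g (y : Circ)‖ ≤ η := by
  have hcl : g ∈ (Submodule.span ℂ (Set.range <| @fourier 1)).topologicalClosure := by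
    rw [span_fourier_closure_eq_top]
    trivial
  have hcl' : g ∈ closure ((Submodule.span ℂ (Set.range <| @fourier 1)) : Set C(Circ, ℂ)) := hcl
  rw [Metric.mem_closure_iff] at hcl'
  obtain ⟨f, hf, hd⟩ := hcl' η hη
  obtain ⟨p, hp⟩ := span_ev f hf
  refine ⟨p, fun y => ?_⟩
  rw [← hp y]
  have h1 := (f - g).norm_coe_le_norm (y : Circ)
  rw [dist_comm, dist_eq_norm] at hd
  exact h1.trans hd.le

lemma coe_fract' (y : ℝ) : (y : Circ) = ((Int.fract y : ℝ) : Circ) := by
  rw [← sub_eq_zero, ← AddCircle.coe_sub, AddCircle.coe_eq_zero_iff]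
  refine ⟨⌊y⌋, ?_⟩
  rw [zsmul_eq_mul, mul_one]
  have := Int.floor_add_fract y
  linarith

/-- the trapezoid -/
noncomputable def tr (a c δ : ℝ) (y : ℝ) : ℝ := max 0 (min 1 (min (y - a) (c - y) / δ))

lemma tr_cont (a c δ : ℝ) : Continuous (tr a c δ) := by
  unfold tr
  fun_prop

lemma tr_nonneg (a c δ y : ℝ) : 0 ≤ tr a c δ y := le_max_left _ _

lemma tr_zero (a c δ y : ℝ) (hδ : 0 < δ) (h : y ≤ a ∨ c ≤ y) : tr a c δ y = 0 := by
  unfold tr
  rw [max_eq_left]
  refine (min_le_right _ _).trans ?_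
  have : min (y - a) (c - y) ≤ 0 := by
    rcases h with h | h
    · exact (min_le_left _ _).trans (by linarith)
    · exact (min_le_right _ _).trans (by linarith)
  exact div_nonpos_of_nonpos_of_nonneg this hδ.le

lemma tr_le_one (a c δ y : ℝ) : tr a c δ y ≤ 1 := by
  unfold tr
  exact max_le zero_le_one (min_le_left _ _)

lemma tr_one (a c δ y : ℝ) (hδ : 0 < δ) (h1 : a + δ ≤ y) (h2 : y ≤ c - δ) :
    tr a c δ y = 1 := by
  unfold tr
  have h3 : 1 ≤ min (y - a) (c - y) / δ := by
    rw [le_div_iff₀ hδ, one_mul]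
    exact le_min (by linarith) (by linarith)
  rw [min_eq_left h3]
  simp

lemma tr_int (a c δ : ℝ) (hδ : 0 < δ) (ha : 0 ≤ a) (hc : c ≤ 1) :
    c - a - 2 * δ ≤ ∫ y in (0 : ℝ)..1, tr a c δ y := by
  by_cases h : c - a ≤ 2 * δ
  · have : 0 ≤ ∫ y in (0 : ℝ)..1, tr a c δ y :=
      intervalIntegral.integral_nonneg zero_le_one (fun y _ => tr_nonneg a c δ y)
    linarith
  · have h' : a + δ ≤ c - δ := by linarith
    have h1 : ∫ y in (a + δ)..(c - δ), tr a c δ y = c - a - 2 * δ := by
      have h2 : ∫ y in (a + δ)..(c - δ), tr a c δ y = ∫ y in (a + δ)..(c - δ), (1 : ℝ) := by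
        refine intervalIntegral.integral_congr (fun y hy => ?_)
        rw [Set.uIcc_of_le h'] at hy
        exact tr_one a c δ y hδ hy.1 hy.2
      rw [h2]
      simp
      ring
    rw [← h1]
    refine intervalIntegral.integral_mono_interval (by linarith) h' (by linarith) ?_
      ((tr_cont a c δ).intervalIntegrable _ _)
    exact Filter.Eventually.of_forall (fun y => tr_nonneg a c δ y)

/-- minorants -/
lemma minor (a c ε : ℝ) (ha : 0 ≤ a) (_hac : a ≤ c) (hc : c ≤ 1) (hε : 0 < ε) (hε1 : ε ≤ 1) :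
    ∃ p : ℤ →₀ ℂ, (∀ y : ℝ, (ev p y).im = 0 ∧
      (ev p y).re ≤ (if a ≤ Int.fract y ∧ Int.fract y < c then 1 else 0) ∧
      -(1 / 2) ≤ (ev p y).re) ∧ (p 0).im = 0 ∧ c - a - ε < (p 0).re := by
  set δ : ℝ := ε / 8 with hδ
  have hδ0 : 0 < δ := by positivity
  -- the function on the circle
  have h0 : tr a c δ 0 = tr a c δ (0 + 1) := by
    rw [tr_zero a c δ 0 hδ0 (Or.inl ha), tr_zero a c δ (0 + 1) hδ0 (Or.inr (by linarith))]
  have hcont : Continuous (AddCircle.liftIco 1 0 (tr a c δ)) :=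
    AddCircle.liftIco_continuous h0 (tr_cont a c δ).continuousOn
  have hval : ∀ y : ℝ, AddCircle.liftIco 1 0 (tr a c δ) (y : Circ) = tr a c δ (Int.fract y) := by
    intro y
    rw [coe_fract' y]
    refine AddCircle.liftIco_coe_apply ⟨Int.fract_nonneg y, ?_⟩
    have := Int.fract_lt_one y
    linarith
  let g : C(Circ, ℂ) := ⟨fun x => ((AddCircle.liftIco 1 0 (tr a c δ) x : ℝ) : ℂ),
    Complex.continuous_ofReal.comp hcont⟩
  have hg : ∀ y : ℝ, g (y : Circ) = ((tr a c δ (Int.fract y) : ℝ) : ℂ) := by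
    intro y
    show ((AddCircle.liftIco 1 0 (tr a c δ) (y : Circ) : ℝ) : ℂ) = _
    rw [hval y]
  obtain ⟨p₀, hp₀⟩ := approx g δ hδ0
  obtain ⟨p₁, hp₁⟩ := conj_exists p₀
  let p : ℤ →₀ ℂ := (1 / 2 : ℂ) • (p₀ + p₁) + Finsupp.single 0 (-(δ : ℂ))
  have hp : ∀ y : ℝ, ev p y = (((ev p₀ y).re - δ : ℝ) : ℂ) := by
    intro y
    show ev ((1 / 2 : ℂ) • (p₀ + p₁) + Finsupp.single 0 (-(δ : ℂ))) y = _
    rw [ev_add, ev_smul, ev_add, hp₁, ev_single, Complex.add_conj]
    simp only [Int.cast_zero, zero_mul, ee_zero, mul_one]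
    push_cast
    ring
  have hre : ∀ y : ℝ, |(ev p₀ y).re - tr a c δ (Int.fract y)| ≤ δ := by
    intro y
    have h1 := hp₀ y
    rw [hg y] at h1
    have h2 := Complex.abs_re_le_norm (ev p₀ y - ((tr a c δ (Int.fract y) : ℝ) : ℂ))
    rw [Complex.sub_re, Complex.ofReal_re] at h2
    exact h2.trans h1
  have hint : p 0 = ((∫ y in (0 : ℝ)..1, ((ev p₀ y).re - δ) : ℝ) : ℂ) := by
    rw [← ev_int p, ← intervalIntegral.integral_ofReal]
    refine intervalIntegral.integral_congr (fun y _ => ?_)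
    exact hp y
  have hcre : Continuous (fun y => (ev p₀ y).re - δ) :=
    (Complex.continuous_re.comp (ev_cont p₀)).sub continuous_const
  have hlow : c - a - 4 * δ ≤ ∫ y in (0 : ℝ)..1, ((ev p₀ y).re - δ) := by
    have h1 : ∫ y in (0 : ℝ)..1, (tr a c δ y - 2 * δ) ≤ ∫ y in (0 : ℝ)..1, ((ev p₀ y).re - δ) := by
      refine intervalIntegral.integral_mono_on_of_le_Ioo zero_le_one
        (((tr_cont a c δ).sub continuous_const).intervalIntegrable _ _)
        (hcre.intervalIntegrable _ _) (fun y hy => ?_)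
      have h2 := hre y
      rw [Int.fract_eq_self.2 ⟨hy.1.le, hy.2⟩] at h2
      have h3 := (abs_le.1 h2).1
      linarith
    rw [intervalIntegral.integral_sub ((tr_cont a c δ).intervalIntegrable _ _)
      (continuous_const.intervalIntegrable _ _)] at h1
    have h4 := tr_int a c δ hδ0 ha hc
    simp only [intervalIntegral.integral_const, sub_zero, one_smul] at h1
    linarith
  refine ⟨p, fun y => ⟨?_, ?_, ?_⟩, ?_, ?_⟩
  · rw [hp y, Complex.ofReal_im]
  · rw [hp y, Complex.ofReal_re]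
    have h1 := (abs_le.1 (hre y)).2
    by_cases h : a ≤ Int.fract y ∧ Int.fract y < c
    · rw [if_pos h]
      have := tr_le_one a c δ (Int.fract y)
      linarith
    · rw [if_neg h]
      have h2 : tr a c δ (Int.fract y) = 0 := by
        refine tr_zero a c δ _ hδ0 ?_
        by_contra h3
        push Not at h3
        exact h ⟨h3.1.le, h3.2⟩
      linarith
  · rw [hp y, Complex.ofReal_re]
    have h1 := (abs_le.1 (hre y)).1
    have h2 := tr_nonneg a c δ (Int.fract y)
    have h3 : δ ≤ 1 / 8 := by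
      rw [hδ]
      linarith
    linarith
  · rw [hint, Complex.ofReal_im]
  · rw [hint, Complex.ofReal_re]
    have : 4 * δ < ε := by
      rw [hδ]
      linarith
    linarith

lemma ev_eq_sum (p : ℤ →₀ ℂ) (S : Finset ℤ) (h : p.support ⊆ S) (y : ℝ) :
    ∑ k ∈ S, p k * ee (k * y) = ev p y := by
  have h1 := Finsupp.sum_of_support_subset p h (fun (k : ℤ) (c : ℂ) => c * ee (k * y))
    (fun k _ => zero_mul _)
  exact h1.symm

theorem main : S_AP := by
  intro a c ha hac hc ε hε
  have hε' : 0 < min ε 1 := lt_min hε one_pos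
  obtain ⟨p, hp, hpi, hpr⟩ := minor a c (min ε 1) ha hac hc hε' (min_le_right _ _)
  obtain ⟨p₁, hp₁, hpi₁, hpr₁⟩ := minor 0 a (min ε 1 / 2) le_rfl ha (hac.trans hc)
    (by positivity) (by have := min_le_right ε 1; linarith)
  obtain ⟨p₂, hp₂, hpi₂, hpr₂⟩ := minor c 1 (min ε 1 / 2) (ha.trans hac) hc le_rfl
    (by positivity) (by have := min_le_right ε 1; linarith)
  have hmin : min ε 1 ≤ ε := min_le_left _ _
  let q : ℤ →₀ ℂ := Finsupp.single 0 1 + ((-1 : ℂ) • p₁ + (-1 : ℂ) • p₂)
  have hq : ∀ y : ℝ, ev q y = 1 - ev p₁ y - ev p₂ y := by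
    intro y
    show ev (Finsupp.single 0 1 + ((-1 : ℂ) • p₁ + (-1 : ℂ) • p₂)) y = _
    rw [ev_add, ev_add, ev_smul, ev_smul, ev_single]
    simp only [Int.cast_zero, zero_mul, ee_zero, mul_one]
    ring
  have hq0 : q 0 = 1 - p₁ 0 - p₂ 0 := by
    show (Finsupp.single 0 1 + ((-1 : ℂ) • p₁ + (-1 : ℂ) • p₂) : ℤ →₀ ℂ) 0 = _
    rw [Finsupp.add_apply, Finsupp.add_apply, Finsupp.smul_apply, Finsupp.smul_apply,
      Finsupp.single_eq_same, smul_eq_mul, smul_eq_mul]
    ring
  let S : Finset ℤ := insert 0 (p.support ∪ q.support)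
  have hS1 : p.support ⊆ S := Finset.subset_union_left.trans (Finset.subset_insert _ _)
  have hS2 : q.support ⊆ S := Finset.subset_union_right.trans (Finset.subset_insert _ _)
  refine ⟨S, p, q, fun y => ?_, Finset.mem_insert_self _ _, hpi, ?_, by linarith, ?_⟩
  · rw [ev_eq_sum p S hS1 y, ev_eq_sum q S hS2 y]
    obtain ⟨a1, a2, -⟩ := hp y
    obtain ⟨b1, b2, b3⟩ := hp₁ y
    obtain ⟨c1, c2, c3⟩ := hp₂ y
    refine ⟨a1, ?_, a2, ?_, ?_⟩
    · rw [hq y]
      simp [b1, c1]
    · rw [hq y]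
      simp only [Complex.sub_re, Complex.one_re]
      have f0 := Int.fract_nonneg y
      have f1 := Int.fract_lt_one y
      split_ifs at b2 c2 ⊢ with h1 h2 h3 h4 h5 h6 h7 <;> linarith
    · rw [hq y]
      simp only [Complex.sub_re, Complex.one_re]
      linarith
  · rw [hq0]
    simp [hpi₁, hpi₂]
  · rw [hq0]
    simp only [Complex.sub_re, Complex.one_re]
    linarith

end Pool.Agent.W371.ND.AP
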